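import Mathlib
import Pool.Agent.H3.BI.Stm1

set_option autoImplicit false

open Finset

namespace Pool.Agent.H70.BD

open Pool.Agent.H3.BI

/-- the opposite direction -/
def opp {d : ℕ} (e : Dir d) : Dir d := (e.1, !e.2)

theorem opp_opp {d : ℕ} (e : Dir d) : opp (opp e) = e := by
  cases e; simp [opp]

theorem uvec_opp {d : ℕ} (e : Dir d) : uvec (opp e) = - uvec e := by
  obtain ⟨i, b⟩ := e
  unfold uvec opp
  cases b
  · simp [← Pi.single_neg]
  · simp [← Pi.single_neg]

theorem abs_coord_le {d : ℕ} (x : Site d) (i : Fin d) : |(x i : ℝ)| ≤ nrm x := by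
  rw [← Real.sqrt_sq_eq_abs]
  exact Real.sqrt_le_sqrt (Finset.single_le_sum (f := fun i => (x i : ℝ) ^ 2)
      (fun _ _ => sq_nonneg _) (Finset.mem_univ i))

theorem nsq_add_uvec {d : ℕ} (x : Site d) (e : Dir d) :
    nsq (x + uvec e) = nsq x + 2 * (if e.2 then 1 else -1) * (x e.1 : ℝ) + 1 := by
  obtain ⟨i, b⟩ := e
  unfold nsq
  have h : ∀ j : Fin d, (((x + uvec (i, b)) j : ℤ) : ℝ) ^ 2 =
      (x j : ℝ) ^ 2 + if j = i then 2 * (if b then (1 : ℝ) else -1) * (x i : ℝ) + 1 else 0 := by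
    intro j
    by_cases hj : j = i
    · subst hj
      cases b <;> simp [uvec] <;> ring
    · simp [hj, uvec]
  rw [Finset.sum_congr rfl fun j _ => h j, Finset.sum_add_distrib]
  simp
  ring

theorem nrm_add_uvec_le {d : ℕ} (x : Site d) (e : Dir d) : nrm (x + uvec e) ≤ nrm x + 1 := by
  have h1 : nsq (x + uvec e) ≤ (nrm x + 1) ^ 2 := by
    rw [nsq_add_uvec]
    have h2 := abs_le.1 (abs_coord_le x e.1)
    have h3 := nrm_sq x
    split_ifs
    · nlinarith [h2.1, h2.2]
    · nlinarith [h2.1, h2.2]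
  calc nrm (x + uvec e) = Real.sqrt (nsq (x + uvec e)) := rfl
    _ ≤ Real.sqrt ((nrm x + 1) ^ 2) := Real.sqrt_le_sqrt h1
    _ = nrm x + 1 := Real.sqrt_sq (by have := nrm_nonneg x; linarith)

theorem zero_mem_bF {d : ℕ} {R : ℝ} (hR : 0 ≤ R) : (0 : Site d) ∈ bF d R := by
  rw [mem_bF]
  have : nrm (0 : Site d) = 0 := by simp [nrm, nsq]
  rw [this]
  exact hR

/-- one direction -/
theorem dir_le {d : ℕ} {R : ℝ} {q w h : Site d → ℝ} (hw : GP R q w)
    (hh : ∀ x, nrm x ≤ R + 1 → 0 ≤ h x) (e : Dir d) :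
    ∑ x ∈ bF d R, w (x + uvec (opp e)) * h x ≤ ∑ x ∈ bF d R, w x * h (x + uvec e) := by
  classical
  have h1 : ∑ x ∈ bF d R, w (x + uvec (opp e)) * h x =
      ∑ y ∈ (bF d R).image (fun x => x + uvec (opp e)), w y * h (y + uvec e) := by
    rw [Finset.sum_image]
    · refine Finset.sum_congr rfl fun x _ => ?_
      rw [uvec_opp]
      simp
    · intro a _ b _ hab
      simpa using hab
  rw [h1]
  have h2 : ∑ y ∈ (bF d R).image (fun x => x + uvec (opp e)), w y * h (y + uvec e) =
      ∑ y ∈ ((bF d R).image (fun x => x + uvec (opp e))).filter (fun y => y ∈ bF d R),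
        w y * h (y + uvec e) := by
    symm
    apply Finset.sum_subset (Finset.filter_subset _ _)
    intro y hy hy'
    have h3 : y ∉ bF d R := fun h4 => hy' (Finset.mem_filter.2 ⟨hy, h4⟩)
    rw [mem_bF, not_le] at h3
    rw [hw.out y h3, zero_mul]
  rw [h2]
  apply Finset.sum_le_sum_of_subset_of_nonneg
  · intro y hy
    exact (Finset.mem_filter.1 hy).2
  · intro y hy _
    rw [mem_bF] at hy
    exact mul_nonneg (hw.nn y) (hh _ ((nrm_add_uvec_le y e).trans (by linarith)))

theorem t_DUA : S_DUA := by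
  classical
  intro d R q w h hd hR hw hh hs
  have hd' : (0 : ℝ) < 2 * d := by
    have : (3 : ℝ) ≤ d := by exact_mod_cast hd
    linarith
  -- the single term at the origin
  have h1 : (h 0 - PP h 0) * w 0 ≤ ∑ x ∈ bF d R, w x * (h x - PP h x) := by
    have := Finset.single_le_sum (f := fun x => w x * (h x - PP h x)) (s := bF d R)
      (fun x hx => mul_nonneg (hw.nn x) (sub_nonneg.2 (hs x ((mem_bF R x).1 hx))))
      (zero_mem_bF hR)
    calc (h 0 - PP h 0) * w 0 = w 0 * (h 0 - PP h 0) := by ring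
      _ ≤ _ := this
  have h2 : ∑ x ∈ bF d R, PP w x * h x ≤ ∑ x ∈ bF d R, w x * PP h x := by
    have e1 : ∑ x ∈ bF d R, PP w x * h x =
        (∑ e : Dir d, ∑ x ∈ bF d R, w (x + uvec e) * h x) / (2 * d) := by
      rw [Finset.sum_comm, Finset.sum_div]
      refine Finset.sum_congr rfl fun x _ => ?_
      unfold PP
      rw [← Finset.sum_mul]
      ring
    have e2 : ∑ x ∈ bF d R, w x * PP h x =
        (∑ e : Dir d, ∑ x ∈ bF d R, w x * h (x + uvec e)) / (2 * d) := by
      rw [Finset.sum_comm, Finset.sum_div]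
      refine Finset.sum_congr rfl fun x _ => ?_
      unfold PP
      rw [← Finset.mul_sum]
      ring
    have e3 : ∑ e : Dir d, ∑ x ∈ bF d R, w (x + uvec e) * h x =
        ∑ e : Dir d, ∑ x ∈ bF d R, w (x + uvec (opp e)) * h x := by
      symm
      exact Finset.sum_equiv (Function.Involutive.toPerm opp opp_opp) (by simp)
        (fun e _ => rfl)
    rw [e1, e2, e3]
    exact div_le_div_of_nonneg_right (Finset.sum_le_sum fun e _ => dir_le hw hh e) hd'.le
  calc (h 0 - PP h 0) * w 0 ≤ ∑ x ∈ bF d R, w x * (h x - PP h x) := h1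
    _ = ∑ x ∈ bF d R, w x * h x - ∑ x ∈ bF d R, w x * PP h x := by
        rw [← Finset.sum_sub_distrib]
        exact Finset.sum_congr rfl fun x _ => by ring
    _ ≤ ∑ x ∈ bF d R, w x * h x - ∑ x ∈ bF d R, PP w x * h x := by linarith
    _ = ∑ x ∈ bF d R, q x * h x := by
        rw [← Finset.sum_sub_distrib]
        refine Finset.sum_congr rfl fun x hx => ?_
        rw [← hw.eq x ((mem_bF R x).1 hx)]
        ring

end Pool.Agent.H70.BD
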